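import Pool.Agent.H310R3.NA12

/-!
# A model of ZF without amorphous sets in which a discrete space has only scattered
# compactifications

There is a model of ZF in which NAS holds and INSHC fails. The first half of the theorem is
proved outright, the second half gives such a model from every model of ZF in which every set has
a well-order.
-/

namespace Pool.Agent.Results.MP_634b21_lc.NASNotINSHC

open FirstOrder FirstOrder.Language
open Pool.Agent.Helper672.Plain (LSet)
open Pool.Agent.H635Amen (ZF)
open Pool.Agent.H310NAS

universe u

theorem result :
    (∃ (N : Type 1) (_ : LSet.Structure N), ZF N ∧ NAS N ∧ ¬ INSHC N) ∧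
    ∀ (M : Type u) [LSet.Structure M], ZF M → WO M →
      ∃ (N : Type u) (_ : LSet.Structure N), ZF N ∧ NAS N ∧ ¬ INSHC N :=
  ⟨Pool.Agent.H310.NA.exists_nas_zs, fun M _ h hW => Pool.Agent.H310.NA.exists_nas M h hW⟩

end Pool.Agent.Results.MP_634b21_lc.NASNotINSHC
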